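import Pool.Agent.K3h20.FB.Stm

/-! Brick DEC of project FB (helper20): stable spaces of odd functions on flipped blocks. -/

set_option autoImplicit false
set_option linter.all false

namespace Pool.Agent.K3h79.FB

open Pool.Agent.K3h20.FB

theorem t_DEC : S_DEC := by
  intro X J _ _ H inv hinv hHinv bl hblinv hblH hflip N hodd hstab c hc j
  classical
  haveI : Fintype H := Fintype.ofFinite _
  obtain ⟨P0, hP0⟩ := N.subtype.exists_leftInverse_of_injective (by simp)
  have hP0' : ∀ d (hd : d ∈ N), P0 d = ⟨d, hd⟩ := fun d hd => LinearMap.congr_fun hP0 ⟨d, hd⟩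
  let P : (X → ℚ) →ₗ[ℚ] (X → ℚ) := ∑ h : H, (LinearMap.funLeft ℚ ℚ (h : Equiv.Perm X)) ∘ₗ
    N.subtype ∘ₗ P0 ∘ₗ LinearMap.funLeft ℚ ℚ ((h⁻¹ : H) : Equiv.Perm X)
  have hPa : ∀ (d : X → ℚ) x, P d x = ∑ h : H,
      (P0 (fun z => d (((h⁻¹ : H) : Equiv.Perm X) z)) : X → ℚ) ((h : Equiv.Perm X) x) := by
    intro d x
    simp only [P, LinearMap.sum_apply, Finset.sum_apply, LinearMap.comp_apply]
    rfl
  have hPN : ∀ d, P d ∈ N := by
    intro d
    have h1 : P d = ∑ h : H, (fun x =>
        (P0 (fun z => d (((h⁻¹ : H) : Equiv.Perm X) z)) : X → ℚ) ((h : Equiv.Perm X) x)) := by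
      funext x
      rw [hPa, Finset.sum_apply]
    rw [h1]
    exact Submodule.sum_mem _ fun h _ => hstab h h.2 _ (P0 _).2
  have hPc : ∀ d ∈ N, ∀ x, P d x = (Fintype.card H : ℚ) * d x := by
    intro d hd x
    rw [hPa]
    have h1 : ∀ h : H, (P0 (fun z => d (((h⁻¹ : H) : Equiv.Perm X) z)) : X → ℚ)
        ((h : Equiv.Perm X) x) = d x := by
      intro h
      rw [hP0' _ (hstab _ (h⁻¹).2 d hd)]
      show d (((h⁻¹ : H) : Equiv.Perm X) ((h : Equiv.Perm X) x)) = d x
      congr 1
      exact (h : Equiv.Perm X).symm_apply_apply x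
    simp only [h1, Finset.sum_const, Finset.card_univ, nsmul_eq_mul]
  have hPg : ∀ (g : H) (d : X → ℚ) x,
      P (fun z => d ((g : Equiv.Perm X) z)) x = P d ((g : Equiv.Perm X) x) := by
    intro g d x
    rw [hPa, hPa]
    refine Fintype.sum_equiv (Equiv.mulRight g⁻¹) _ _ fun h => ?_
    have e1 : (Equiv.mulRight g⁻¹) h = h * g⁻¹ := rfl
    rw [e1]
    have e2 : (fun z => d ((((h * g⁻¹)⁻¹ : H) : Equiv.Perm X) z)) =
        fun z => d ((g : Equiv.Perm X) (((h⁻¹ : H) : Equiv.Perm X) z)) := by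
      funext z
      rw [mul_inv_rev, inv_inv]
      rfl
    have e3 : ((h * g⁻¹ : H) : Equiv.Perm X) ((g : Equiv.Perm X) x) = (h : Equiv.Perm X) x := by
      show (((h * g⁻¹ : H) : Equiv.Perm X) * (g : Equiv.Perm X)) x = _
      rw [← Subgroup.coe_mul, inv_mul_cancel_right]
    rw [e2, e3]
  have hvan : ∀ d : X → ℚ, (∀ x, d (inv x) = -d x) → ∀ x, (∀ y, bl y = bl x → d y = 0) →
      P d x = 0 := by
    intro d hd x hx
    let M : X → ℚ := fun y => P (fun z => if y = z then 1 else 0) x
    have hM : P d x = ∑ y, d y * M y := by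
      rw [LinearMap.pi_apply_eq_sum_univ P d, Finset.sum_apply]
      rfl
    have hMi : ∀ y, bl x ≠ bl y → M (inv y) = M y := by
      intro y hy
      obtain ⟨h, hh, hhx, hhy⟩ := hflip x y hy
      have h1 := hPg (⟨h, hh⟩⁻¹ : H) (fun z => if y = z then (1 : ℚ) else 0) x
      have e1 : (((⟨h, hh⟩⁻¹ : H)) : Equiv.Perm X) x = x := by
        show h⁻¹ x = x
        rw [Equiv.Perm.inv_eq_iff_eq]
        exact hhx.symm
      have e2 : (fun z => if y = (((⟨h, hh⟩⁻¹ : H)) : Equiv.Perm X) z then (1 : ℚ) else 0) =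
          fun z => if inv y = z then (1 : ℚ) else 0 := by
        funext z
        have e3 : (y = (((⟨h, hh⟩⁻¹ : H)) : Equiv.Perm X) z) ↔ inv y = z := by
          show y = h⁻¹ z ↔ inv y = z
          rw [Equiv.Perm.eq_inv_iff_eq, hhy]
        by_cases h4 : inv y = z
        · rw [if_pos h4, if_pos (e3.2 h4)]
        · rw [if_neg h4, if_neg (fun h5 => h4 (e3.1 h5))]
      rw [e1, e2] at h1
      exact h1
    have h2 : ∑ y, d y * M y = ∑ y, d (inv y) * M (inv y) :=
      (Fintype.sum_equiv (Function.Involutive.toPerm inv hinv) _ _ fun y => rfl).symm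
    have h3 : ∑ y, d (inv y) * M (inv y) = -∑ y, d y * M y := by
      rw [← Finset.sum_neg_distrib]
      refine Finset.sum_congr rfl fun y _ => ?_
      rw [hd]
      by_cases hy : bl x = bl y
      · rw [hx y hy.symm]
        simp
      · rw [hMi y hy]
        ring
    rw [hM]
    linarith
  have hcj : ∀ x, P (fun x => if bl x = j then c x else 0) x =
      (Fintype.card H : ℚ) * (if bl x = j then c x else 0) := by
    intro x
    by_cases hx : bl x = j
    · rw [if_pos hx, ← hPc c hc x]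
      have h1 := hvan (c - fun x => if bl x = j then c x else 0) (by
        intro y
        simp only [Pi.sub_apply, hblinv, hodd c hc y]
        split_ifs <;> ring) x (by
        intro y hy
        rw [Pi.sub_apply, if_pos (hy.trans hx), sub_self])
      rw [map_sub, Pi.sub_apply] at h1
      linarith
    · rw [if_neg hx, mul_zero]
      refine hvan _ ?_ x ?_
      · intro y
        simp only [hblinv, hodd c hc y]
        split_ifs <;> ring
      · intro y hy
        rw [if_neg (fun h => hx (hy.symm.trans h))]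
  have hcard : (Fintype.card H : ℚ) ≠ 0 := Nat.cast_ne_zero.2 Fintype.card_ne_zero
  have h5 : (fun x => if bl x = j then c x else 0) =
      (Fintype.card H : ℚ)⁻¹ • P (fun x => if bl x = j then c x else 0) := by
    funext x
    rw [Pi.smul_apply, hcj, smul_eq_mul, inv_mul_cancel_left₀ hcard]
  rw [h5]
  exact N.smul_mem _ (hPN _)

end Pool.Agent.K3h79.FB
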